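import Mathlib

/-!
# The group `PGL(2,7)` acting on eight points
-/

namespace Pool.Agent.X265.PG

/-- an element of order eight acting regularly -/
def X : Equiv.Perm (Fin 8) := ⟨fun i => i + 1, fun i => i - 1, by decide, by decide⟩
/-- a translation -/
def T : Equiv.Perm (Fin 8) :=
  ⟨![0, 2, 5, 6, 3, 4, 7, 1], ![0, 7, 1, 4, 5, 2, 3, 6], by decide, by decide⟩
/-- a dilation -/
def U : Equiv.Perm (Fin 8) :=
  ⟨![0, 1, 4, 6, 5, 7, 2, 3], ![0, 1, 6, 7, 2, 4, 3, 5], by decide, by decide⟩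

/-- the normal form -/
def nf (j : Fin 7) (k : Fin 6) (i : Fin 8) : Equiv.Perm (Fin 8) :=
  T ^ (j : ℕ) * U ^ (k : ℕ) * X ^ (i : ℕ)

lemma X_mul : ∀ (j : Fin 7) (k : Fin 6), ∃ (j' : Fin 7) (k' : Fin 6) (i' : Fin 8),
    X * (T ^ (j : ℕ) * U ^ (k : ℕ)) = nf j' k' i' := by
  decide +kernel

lemma X8 : X ^ 8 = 1 := by decide +kernel
lemma T7 : T ^ 7 = 1 := by decide +kernel
lemma U6 : U ^ 6 = 1 := by decide +kernel
lemma UT : U * T = T ^ 3 * U := by decide +kernel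

lemma X_pow_mod (n : ℕ) : ∃ i : Fin 8, X ^ n = X ^ (i : ℕ) := by
  refine ⟨⟨n % 8, Nat.mod_lt _ (by norm_num)⟩, ?_⟩
  conv_lhs => rw [← Nat.div_add_mod n 8, pow_add, pow_mul, X8, one_pow, one_mul]

lemma T_pow_mod (n : ℕ) : ∃ i : Fin 7, T ^ n = T ^ (i : ℕ) := by
  refine ⟨⟨n % 7, Nat.mod_lt _ (by norm_num)⟩, ?_⟩
  conv_lhs => rw [← Nat.div_add_mod n 7, pow_add, pow_mul, T7, one_pow, one_mul]

lemma U_pow_mod (n : ℕ) : ∃ i : Fin 6, U ^ n = U ^ (i : ℕ) := by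
  refine ⟨⟨n % 6, Nat.mod_lt _ (by norm_num)⟩, ?_⟩
  conv_lhs => rw [← Nat.div_add_mod n 6, pow_add, pow_mul, U6, one_pow, one_mul]

/-- elements in normal form -/
def NF (σ : Equiv.Perm (Fin 8)) : Prop := ∃ j k i, σ = nf j k i

lemma NF_one : NF 1 := ⟨0, 0, 0, by simp [nf]⟩

lemma NF_X {σ : Equiv.Perm (Fin 8)} (h : NF σ) : NF (X * σ) := by
  obtain ⟨j, k, i, rfl⟩ := h
  obtain ⟨j', k', i', h'⟩ := X_mul j k
  obtain ⟨i'', h''⟩ := X_pow_mod ((i' : ℕ) + i)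
  refine ⟨j', k', i'', ?_⟩
  unfold nf at *
  rw [← mul_assoc, h', mul_assoc, ← pow_add, h'']

lemma NF_T {σ : Equiv.Perm (Fin 8)} (h : NF σ) : NF (T * σ) := by
  obtain ⟨j, k, i, rfl⟩ := h
  obtain ⟨j', h'⟩ := T_pow_mod ((j : ℕ) + 1)
  refine ⟨j', k, i, ?_⟩
  unfold nf
  rw [← h', pow_succ']
  group

lemma UT_pow (n : ℕ) : U * T ^ n = T ^ (3 * n) * U := by
  induction n with
  | zero => simp
  | succ n ih =>
    rw [pow_succ, ← mul_assoc, ih, mul_assoc, UT, ← mul_assoc, ← pow_add]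
    congr 2

lemma NF_U {σ : Equiv.Perm (Fin 8)} (h : NF σ) : NF (U * σ) := by
  obtain ⟨j, k, i, rfl⟩ := h
  obtain ⟨j', h'⟩ := T_pow_mod (3 * (j : ℕ))
  obtain ⟨k', h''⟩ := U_pow_mod ((k : ℕ) + 1)
  refine ⟨j', k', i, ?_⟩
  unfold nf
  rw [← h', ← h'', pow_succ', ← mul_assoc, ← mul_assoc, UT_pow]
  group

/-- the generators -/
def gens : Set (Equiv.Perm (Fin 8)) := {X, T, U}

/-- the group `PGL(2,7)` as a permutation group of degree eight -/
def G : Subgroup (Equiv.Perm (Fin 8)) := Subgroup.closure gens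

lemma NF_pow {a : Equiv.Perm (Fin 8)} (ha : ∀ σ, NF σ → NF (a * σ)) (n : ℕ) :
    ∀ σ, NF σ → NF (a ^ n * σ) := by
  induction n with
  | zero => intro σ h; simpa using h
  | succ n ih => intro σ h; rw [pow_succ, mul_assoc]; exact ih _ (ha _ h)

lemma NF_of_mem {σ : Equiv.Perm (Fin 8)} (h : σ ∈ G) : NF σ := by
  have hX : X⁻¹ = X ^ 7 := inv_eq_of_mul_eq_one_left (by rw [← pow_succ, X8])
  have hT : T⁻¹ = T ^ 6 := inv_eq_of_mul_eq_one_left (by rw [← pow_succ, T7])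
  have hU : U⁻¹ = U ^ 5 := inv_eq_of_mul_eq_one_left (by rw [← pow_succ, U6])
  induction h using Subgroup.closure_induction_left with
  | one => exact NF_one
  | mul_left x hx y _ ih =>
    rcases hx with rfl | rfl | rfl
    · exact NF_X ih
    · exact NF_T ih
    · exact NF_U ih
  | inv_mul_cancel x hx y _ ih =>
    rcases hx with rfl | rfl | rfl
    · rw [hX]; exact NF_pow (fun _ => NF_X) _ _ ih
    · rw [hT]; exact NF_pow (fun _ => NF_T) _ _ ih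
    · rw [hU]; exact NF_pow (fun _ => NF_U) _ _ ih

/-- elements commuting with all their conjugates under powers of `X` are powers of `X` -/
lemma F1 : ∀ (j : Fin 7) (k : Fin 6) (i : Fin 8),
    (∀ m : Fin 8, nf j k i * (X ^ (m : ℕ) * nf j k i * X ^ (8 - (m : ℕ))) =
      (X ^ (m : ℕ) * nf j k i * X ^ (8 - (m : ℕ))) * nf j k i) → j = 0 ∧ k = 0 := by
  decide +kernel

/-- the reflection -/
def S : Equiv.Perm (Fin 8) := ⟨fun i => -i, fun i => -i, by decide, by decide⟩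

/-- the centraliser of `X ^ 4` -/
lemma F2 : ∀ (j : Fin 7) (k : Fin 6) (i : Fin 8), nf j k i * X ^ 4 = X ^ 4 * nf j k i →
    (∃ m : Fin 8, nf j k i = X ^ (m : ℕ)) ∨ (∃ m : Fin 8, nf j k i = X ^ (m : ℕ) * S) := by
  decide +kernel

end Pool.Agent.X265.PG
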